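import Pool.Agent.Lib.MP_0d2fa0_co.Surj

/-!
A surjective binary cellular automaton of radius `8` whose number of words of weight at most `2`
in the preimage of the symbol `1` is `8`, while the identity has `9` such words.
-/

namespace Pool.Agent.Results.MP_0d2fa0_co.PrefixSumFails

/-- The cellular automaton of radius `r` with local rule `f`: the configuration `x` is mapped to
the configuration whose cell `i` is `f (x i, x (i + 1), ..., x (i + r))`. The symbols `0`, `1` are
`false`, `true`. -/
def ca (r : ℕ) (f : (Fin (r + 1) → Bool) → Bool) (x : ℤ → Bool) : ℤ → Bool :=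
  fun i => f fun j => x (i + (j : ℕ))

/-- The number of symbols `1` in the word `w`. -/
def ones {n : ℕ} (w : Fin n → Bool) : ℕ := (Finset.univ.filter fun j => w j = true).card

/-- `N(F, r, k)`: the number of words `w` of length `r + 1` with exactly `k` symbols `1` and
`f w = 1`. -/
def count (r : ℕ) (f : (Fin (r + 1) → Bool) → Bool) (k : ℕ) : ℕ :=
  (Finset.univ.filter fun w : Fin (r + 1) → Bool => f w = true ∧ ones w = k).card

theorem result : ∃ f : (Fin (8 + 1) → Bool) → Bool, Function.Surjective (ca 8 f) ∧
    ∑ k ∈ Finset.range (2 + 1), count 8 f k = 8 ∧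
    ∑ k ∈ Finset.range (2 + 1), count 8 (fun w => w 0) k = 9 := by
  refine ⟨Pool.Agent.Lib.MP_0d2fa0_co.rule, Pool.Agent.Lib.MP_0d2fa0_co.surjective, ?_, ?_⟩
  · decide +kernel
  · decide +kernel

end Pool.Agent.Results.MP_0d2fa0_co.PrefixSumFails
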